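import Pool.Agent.Helper64.CT.Stmts

set_option autoImplicit false

namespace Pool.Agent.Helper64.CT

variable {V : Type}

def lc_LL (G : SimpleGraph V) (c x : V) : Set V := {z | z ∈ Far G c ∧ Clu G c x z}

def lc_MM (G : SimpleGraph V) (c x : V) : Set V :=
  {n | ∃ z, z ∈ Far G c ∧ Clu G c x z ∧ n ∈ Att G c z}

def lc_WW (G : SimpleGraph V) (c x : V) : Set V :=
  {w | w ∈ Far G c ∧ ¬ Clu G c x w ∧ (∃ n, n ∈ lc_MM G c x ∧ n ∈ Att G c w) ∧ ¬ Le G c x w}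

def lc_P (G : SimpleGraph V) (c x : V) : Set V :=
  {v | v ∈ lc_LL G c x ∨ v ∈ lc_MM G c x ∨ v ∈ lc_WW G c x}

theorem lc_a (h2 : ST_CL2) {G : SimpleGraph V} {c x w : V} (hx : x ∈ Far G c)
    (hw : w ∈ lc_WW G c x) :
    ∃ z, z ∈ Far G c ∧ Clu G c x z ∧ Le G c w z ∧ ∀ n, n ∈ Att G c w → n ∈ lc_MM G c x := by
  obtain ⟨hwf, hnc, ⟨n, ⟨z, hzf, hxz, hnz⟩, hnw⟩, hnle⟩ := hw
  have h3 : ¬ Comp G c z w := fun h => hnc (hxz.tail (Or.inl h))
  have h4 : ¬ Conf G c z w := fun h => hnc (hxz.tail (Or.inr h))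
  have h5 : ¬ Clu G c z w := fun h => hnc (hxz.trans h)
  have h6 : ¬ Le G c z w := by
    intro h
    exact hnle ((h2 V G c z w hzf hwf h h5).1 x hxz.symm)
  have h7 : ∀ u, Comp G c z u → ¬ Mixed G u (Att G c w) := by
    intro u hu hm
    apply h6
    refine ⟨⟨n, hnz, hnw⟩, ?_⟩
    intro v hv hmv
    exact h4 ⟨h3, ⟨u, hu, hm⟩, v, hv, hmv⟩
  refine ⟨z, hzf, hxz, ⟨⟨n, hnw, hnz⟩, h7⟩, ?_⟩
  intro n' hn'
  obtain ⟨_, u, hu, hau⟩ := hnz
  refine ⟨z, hzf, hxz, hn'.1, u, hu, ?_⟩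
  by_contra hcon
  exact h7 u hu ⟨⟨n, hnw, hau.symm⟩, n', hn', fun h => hcon h.symm⟩

theorem lc_b (h2 : ST_CL2) {G : SimpleGraph V} (hT : TF G) {c x p q : V} (hx : x ∈ Far G c)
    (hp : p ∈ lc_P G c x) (hq : q ∉ lc_P G c x) (hpq : G.Adj p q) :
    p ∈ lc_MM G c x ∧ (q = c ∨ ∀ n, n ∈ lc_MM G c x → G.Adj q n) := by
  rcases hp with hp | hp | hp
  · exfalso
    have hqc : q ≠ c := by
      rintro rfl
      exact hp.1.2 hpq.symm
    by_cases hcq : G.Adj c q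
    · exact hq (Or.inr (Or.inl ⟨p, hp.1, hp.2, hcq, p, Comp.refl hp.1, hpq.symm⟩))
    · have hqf : q ∈ Far G c := ⟨hqc, hcq⟩
      exact hq (Or.inl ⟨hqf, hp.2.tail (Or.inl (Comp.adj hp.1 hqf hpq))⟩)
  · refine ⟨hp, ?_⟩
    by_cases hqc : q = c
    · exact Or.inl hqc
    · right
      obtain ⟨z, hzf, hxz, hpz⟩ := hp
      have hcq : ¬ G.Adj c q := hT c p q hpz.1 hpq
      have hqf : q ∈ Far G c := ⟨hqc, hcq⟩
      have hpq' : p ∈ Att G c q := ⟨hpz.1, q, Comp.refl hqf, hpq⟩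
      have hncl : ¬ Clu G c x q := fun h => hq (Or.inl ⟨hqf, h⟩)
      have hle : Le G c x q := by
        by_contra h
        exact hq (Or.inr (Or.inr ⟨hqf, hncl, ⟨p, ⟨z, hzf, hxz, hpz⟩, hpq'⟩, h⟩))
      rcases (h2 V G c x q hx hqf hle hncl).2 q (Comp.refl hqf) with h | h
      · rintro n ⟨z', _, hz', hn⟩
        exact h z' n hz' hn
      · exact absurd hpq.symm (h z p hxz hpz)
  · exfalso
    have hqc : q ≠ c := by
      rintro rfl
      exact hp.1.2 hpq.symm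
    obtain ⟨z, _, _, _, hsub⟩ := lc_a h2 hx hp
    obtain ⟨hpf, hncl, ⟨n, hn, hnp⟩, hnle⟩ := hp
    by_cases hcq : G.Adj c q
    · exact hq (Or.inr (Or.inl (hsub q ⟨hcq, p, Comp.refl hpf, hpq.symm⟩)))
    · have hqf : q ∈ Far G c := ⟨hqc, hcq⟩
      have hcomp : Comp G c p q := Comp.adj hpf hqf hpq
      refine hq (Or.inr (Or.inr ⟨hqf, fun h => hncl (h.tail (Or.inl hcomp.symm)),
        ⟨n, hn, by rw [← Att.congr hcomp]; exact hnp⟩, ?_⟩))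
      rintro ⟨⟨n', h3, h4⟩, h5⟩
      refine hnle ⟨⟨n', h3, by rw [Att.congr hcomp]; exact h4⟩, ?_⟩
      intro u hu
      exact h5 u (hcomp.symm.trans hu)

theorem lc_cross (h2 : ST_CL2) {G : SimpleGraph V} (hT : TF G) {c x : V} (hx : x ∈ Far G c) :
    Cross G (lc_P G c x) := by
  intro a ha a' ha' b hb b' hb' hab hab'
  obtain ⟨h3, -⟩ := lc_b h2 hT hx ha hb hab
  obtain ⟨-, h4⟩ := lc_b h2 hT hx ha' hb' hab'
  rcases h4 with rfl | h4
  · obtain ⟨z, _, _, h5⟩ := h3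
    exact h5.1.symm
  · exact (h4 a h3).symm

theorem lc_split (h1 : ST_ATT) (h2 : ST_CL2) {G : SimpleGraph V} (hG : G.Preconnected) (hT : TF G)
    {c x y : V} (hx : x ∈ Far G c) (hy : y ∈ Far G c) (hyP : y ∉ lc_P G c x) :
    Split G (lc_P G c x) := by
  refine ⟨lc_cross h2 hT hx, ?_, ?_⟩
  · obtain ⟨n, hn⟩ := h1 V G hG c x hx
    refine ⟨x, Or.inl ⟨hx, Relation.ReflTransGen.refl⟩, n,
      Or.inr (Or.inl ⟨x, hx, Relation.ReflTransGen.refl, hn⟩), ?_⟩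
    rintro rfl
    exact hx.2 hn.1
  · refine ⟨c, ?_, y, hyP, fun h => hy.1 h.symm⟩
    rintro (h | h | h)
    · exact h.1.1 rfl
    · obtain ⟨z, _, _, h5⟩ := h
      exact G.irrefl h5.1
    · exact h.1.1 rfl

theorem st_LC (h1 : ST_ATT) (h2 : ST_CL2) : ST_LC := by
  intro V G hG hT hPr c x hx y hy
  by_contra hxy
  by_cases hyP : y ∈ lc_P G c x
  · have hyW : y ∈ lc_WW G c x := by
      rcases hyP with h | h | h
      · exact absurd h.2 hxy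
      · obtain ⟨z, _, _, h5⟩ := h
        exact absurd h5.1 hy.2
      · exact h
    obtain ⟨z, hzf, hxz, hle, -⟩ := lc_a h2 hx hyW
    refine hPr _ (lc_split h1 h2 hG hT (x := y) (y := z) hy hzf ?_)
    rintro (h | h | h)
    · exact hxy (hxz.trans h.2.symm)
    · obtain ⟨z', _, _, h5⟩ := h
      exact hzf.2 h5.1
    · exact h.2.2.2 hle
  · exact hPr _ (lc_split h1 h2 hG hT hx hy hyP)

end Pool.Agent.Helper64.CT
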